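import Mathlib
import Pool.Agent.Lib.MP_c22f6b_an.Basic

set_option autoImplicit false

namespace Pool.Agent.Variants.MP_c22f6b_an.TraceFails

open MeasureTheory Metric
open scoped ENNReal
open Pool.Agent.Lib.MP_c22f6b_an

/-- One scale: a measure with a uniform regularity constant and an eigenfunction with ratio `N / 4`. -/
private lemma one_scale (d : ℕ) (hd : 2 ≤ d) (α : ℝ) (hα0 : 0 ≤ α) (hα : α < d) (N : ℕ) :
    ∃ ν : Measure (Tor d), IsProbabilityMeasure ν ∧
      (∀ (x₀ : Tor d) (r : ℝ), 0 < r → ν (closedBall x₀ r) ≤ ENNReal.ofReal (6 ^ d * r ^ α)) ∧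
      ∃ (n : ℕ) (S : Finset (Fin d → ℤ)), S.card = N ∧ (∀ k ∈ S, ∑ i, k i ^ 2 = (n : ℤ)) ∧
        ∀ᵐ z ∂ν, (N : ℝ) / 2 ≤ ‖∑ k ∈ S, UnitAddTorus.mFourier k z‖ := by
  obtain ⟨n, S, hS, hSn⟩ := exists_lattice_points d hd N
  have hcont : ∀ᶠ w in nhds (0 : Tor d), ∀ k ∈ S, ‖UnitAddTorus.mFourier k w - 1‖ ≤ 1 / 2 := by
    rw [Filter.eventually_all_finset]
    intro k _
    have h1 : ContinuousAt (fun w : Tor d => ‖UnitAddTorus.mFourier k w - 1‖) 0 := by
      apply Continuous.continuousAt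
      exact ((UnitAddTorus.mFourier k).continuous.sub continuous_const).norm
    have h2 : ‖UnitAddTorus.mFourier k (0 : Tor d) - 1‖ < 1 / 2 := by
      simp [UnitAddTorus.mFourier]
    exact (h1.eventually (gt_mem_nhds h2)).mono fun w hw => hw.le
  obtain ⟨δ₀, hδ₀, hball⟩ := Metric.nhds_basis_closedBall.eventually_iff.mp hcont
  set δ : ℝ := min δ₀ (1 / 2) with hδdef
  have hδ : 0 < δ := lt_min hδ₀ (by norm_num)
  have hδ1 : δ ≤ 1 / 2 := min_le_right _ _
  have hδ2 : δ ≤ δ₀ := min_le_left _ _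
  have hdα : 0 < (d : ℝ) - α := by linarith
  set r₀ : ℝ := (δ ^ d) ^ (1 / ((d : ℝ) - α)) with hr₀
  have hr₀pos : 0 < r₀ := by positivity
  obtain ⟨m, hm⟩ := exists_nat_gt (max (1 / r₀) 1)
  have hm1 : (1 : ℝ) < m := lt_of_le_of_lt (le_max_right _ _) hm
  have hm2 : 1 / r₀ < m := lt_of_le_of_lt (le_max_left _ _) hm
  have hmpos : (0 : ℝ) < m := by linarith
  have hm0 : 0 < m := by exact_mod_cast hmpos
  have hm3 : 1 / (m : ℝ) ≤ r₀ := by
    rw [div_lt_iff₀ hr₀pos] at hm2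
    rw [div_le_iff₀ hmpos]
    linarith
  have hρ1 : δ / m ≤ 1 / m := by gcongr; linarith
  have hρ2 : 2 * (δ / m) ≤ 1 := by
    have : δ / m ≤ δ := div_le_self hδ.le hm1.le
    linarith
  obtain ⟨ν, hν, hνae, hνreg⟩ := exists_periodic_measure d m hm0 (δ / m) (by positivity) hρ2
  refine ⟨ν, hν, ?_, m ^ 2 * n, S.image (fun k => (m : ℤ) • k), ?_, ?_, ?_⟩
  · intro x₀ r hr
    rcases le_or_gt 1 r with h1 | h1
    · refine le_trans prob_le_one ?_
      rw [← ENNReal.ofReal_one]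
      apply ENNReal.ofReal_le_ofReal
      have h2 : (1 : ℝ) ≤ 6 ^ d := one_le_pow₀ (by norm_num)
      have h3 : (1 : ℝ) ≤ r ^ α := Real.one_le_rpow h1 hα0
      nlinarith
    refine le_trans (hνreg x₀ r hr) (ENNReal.ofReal_le_ofReal ?_)
    rcases le_or_gt (1 / (m : ℝ)) r with h2 | h2
    · calc (2 * (r + δ / m + 1 / m)) ^ d * min 1 ((r / (δ / m)) ^ d)
          ≤ (6 * r) ^ d * 1 := by
            gcongr ?_ ^ d * ?_
            · linarith
            · exact min_le_left _ _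
        _ = 6 ^ d * r ^ (d : ℝ) := by rw [mul_one, mul_pow, Real.rpow_natCast]
        _ ≤ 6 ^ d * r ^ α := by
            gcongr 6 ^ d * ?_
            exact Real.rpow_le_rpow_of_exponent_ge hr h1.le hα.le
    · have h3 : r ^ ((d : ℝ) - α) ≤ δ ^ d := by
        calc r ^ ((d : ℝ) - α) ≤ r₀ ^ ((d : ℝ) - α) := by
              gcongr
              linarith
          _ = δ ^ d := by
              rw [hr₀, ← Real.rpow_mul (by positivity), one_div_mul_cancel hdα.ne', Real.rpow_one]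
      have h4 : r ^ d = r ^ α * r ^ ((d : ℝ) - α) := by
        rw [← Real.rpow_add hr, add_sub_cancel, Real.rpow_natCast]
      calc (2 * (r + δ / m + 1 / m)) ^ d * min 1 ((r / (δ / m)) ^ d)
          ≤ (6 * (1 / m)) ^ d * (r / (δ / m)) ^ d := by
            gcongr ?_ ^ d * ?_
            · linarith
            · exact min_le_right _ _
        _ = 6 ^ d * (r ^ d / δ ^ d) := by
            rw [← mul_pow, ← div_pow, ← mul_pow]
            congr 1
            field_simp
        _ ≤ 6 ^ d * r ^ α := by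
            gcongr 6 ^ d * ?_
            rw [div_le_iff₀ (by positivity), h4]
            gcongr
  · rw [Finset.card_image_of_injective _ (smul_right_injective _ (by exact_mod_cast hm0.ne')), hS]
  · intro v hv
    obtain ⟨k, hk, rfl⟩ := Finset.mem_image.mp hv
    simp only [Pi.smul_apply, smul_eq_mul, mul_pow, ← Finset.mul_sum, hSn k hk]
    push_cast
    ring
  · filter_upwards [hνae] with z hz
    rw [Finset.sum_image (fun a _ b _ h =>
      smul_right_injective _ (by exact_mod_cast hm0.ne' : (m : ℤ) ≠ 0) h)]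
    simp_rw [mFourier_smul]
    have hz' : m • z ∈ closedBall (0 : Tor d) δ₀ := by
      rw [mem_closedBall, dist_zero_right]
      rw [mul_div_cancel₀ _ hmpos.ne'] at hz
      linarith
    have h1 := hball hz'
    have h2 : ‖∑ k ∈ S, (UnitAddTorus.mFourier k (m • z) - 1)‖ ≤ (N : ℝ) / 2 := by
      refine le_trans (norm_sum_le _ _) (le_trans (Finset.sum_le_sum h1) ?_)
      rw [Finset.sum_const, hS, nsmul_eq_mul]
      linarith
    rw [Finset.sum_sub_distrib, Finset.sum_const, hS, nsmul_eq_mul, mul_one] at h2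
    have h3 := norm_sub_norm_le (N : ℂ) (∑ k ∈ S, UnitAddTorus.mFourier k (m • z))
    rw [norm_sub_rev, Complex.norm_natCast] at h3
    linarith

/-- For every `d ≥ 2` and every `0 ≤ α < d` there is an upper `α`-regular Borel probability measure
on the flat torus for which the trace inequality for Laplace eigenfunctions fails. -/
theorem result (d : ℕ) (hd : 2 ≤ d) (α : ℝ) (hα0 : 0 ≤ α) (hα : α < d) :
    ∃ μ : Measure (Fin d → UnitAddCircle), IsProbabilityMeasure μ ∧
      (∃ C : ℝ, ∀ (x₀ : Fin d → UnitAddCircle) (r : ℝ), 0 < r →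
        μ {x | Real.sqrt (∑ i, ‖x i - x₀ i‖ ^ 2) < r} ≤ ENNReal.ofReal (C * r ^ α)) ∧
      ¬ ∃ C : ℝ, ∀ (n : ℕ) (S : Finset (Fin d → ℤ)) (a : (Fin d → ℤ) → ℂ),
        (∀ k ∈ S, ∑ i, k i ^ 2 = (n : ℤ)) →
        ∫ x, ‖∑ k ∈ S, a k * UnitAddTorus.mFourier k x‖ ^ 2 ∂μ ≤
          C * ∫ x : Fin d → UnitAddCircle, ‖∑ k ∈ S, a k * UnitAddTorus.mFourier k x‖ ^ 2 := by
  choose ν hνp hνreg n S hS hSn hνae using fun j : ℕ => one_scale d hd α hα0 hα (4 ^ (j + 2))
  have hgeom : ∑' j : ℕ, (2⁻¹ : ℝ≥0∞) ^ (j + 1) = 1 := by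
    rw [ENNReal.tsum_geometric_add_one, ENNReal.one_sub_inv_two, inv_inv]
    exact ENNReal.inv_mul_cancel (by norm_num) (by norm_num)
  let μ : Measure (Tor d) := Measure.sum fun j : ℕ => (2⁻¹ : ℝ≥0∞) ^ (j + 1) • ν j
  have hμ : IsProbabilityMeasure μ := by
    constructor
    simp only [μ]
    rw [Measure.sum_apply _ MeasurableSet.univ]
    simp only [Measure.smul_apply, measure_univ, smul_eq_mul, mul_one]
    exact hgeom
  refine ⟨μ, hμ, ⟨6 ^ d, ?_⟩, ?_⟩
  · intro x₀ r hr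
    have hsub : {x : Tor d | Real.sqrt (∑ i, ‖x i - x₀ i‖ ^ 2) < r} ⊆ closedBall x₀ r := by
      intro x hx
      rw [mem_closedBall, dist_pi_le_iff hr.le]
      intro i
      rw [dist_eq_norm]
      refine le_trans ?_ (le_of_lt hx)
      apply Real.le_sqrt_of_sq_le
      exact Finset.single_le_sum (f := fun i => ‖x i - x₀ i‖ ^ 2) (fun i _ => by positivity)
        (Finset.mem_univ i)
    refine le_trans (measure_mono hsub) ?_
    simp only [μ]
    rw [Measure.sum_apply _ measurableSet_closedBall]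
    simp only [Measure.smul_apply, smul_eq_mul]
    calc ∑' j : ℕ, (2⁻¹ : ℝ≥0∞) ^ (j + 1) * ν j (closedBall x₀ r)
        ≤ ∑' j : ℕ, (2⁻¹ : ℝ≥0∞) ^ (j + 1) * ENNReal.ofReal (6 ^ d * r ^ α) := by
          gcongr with j
          exact hνreg j x₀ r hr
      _ = ENNReal.ofReal (6 ^ d * r ^ α) := by
          rw [ENNReal.tsum_mul_right, hgeom, one_mul]
  · rintro ⟨C, hC⟩
    obtain ⟨j, hj⟩ := pow_unbounded_of_one_lt C (by norm_num : (1 : ℝ) < 2)
    have h1 := hC (n j) (S j) (fun _ => 1) (hSn j)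
    simp only [one_mul] at h1
    rw [integral_sq_sum, hS j] at h1
    let f : Tor d → ℝ := fun x => ‖∑ k ∈ S j, UnitAddTorus.mFourier k x‖ ^ 2
    have hf : Continuous f := by
      apply Continuous.pow
      apply Continuous.norm
      exact continuous_finsetSum _ fun k _ => (UnitAddTorus.mFourier k).continuous
    have hfi : ∀ (ρ : Measure (Tor d)) [IsFiniteMeasure ρ], Integrable f ρ := fun ρ _ =>
      hf.integrable_of_hasCompactSupport (HasCompactSupport.of_compactSpace _)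
    have h2 : ∫ x, f x ∂((2⁻¹ : ℝ≥0∞) ^ (j + 1) • ν j) ≤ ∫ x, f x ∂μ :=
      integral_mono_measure (Measure.le_sum (fun j : ℕ => (2⁻¹ : ℝ≥0∞) ^ (j + 1) • ν j) j)
        (Filter.Eventually.of_forall fun x => by simp only [f]; positivity) (hfi μ)
    have := hνp j
    have h3 : (((4 ^ (j + 2) : ℕ) : ℝ) / 2) ^ 2 ≤ ∫ x, f x ∂(ν j) := by
      have h4 : ∫ _ : Tor d, (((4 ^ (j + 2) : ℕ) : ℝ) / 2) ^ 2 ∂(ν j) ≤ ∫ x, f x ∂(ν j) := by
        apply integral_mono_ae (integrable_const _) (hfi _)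
        filter_upwards [hνae j] with z hz
        simp only [f]
        gcongr
      simpa using h4
    rw [integral_smul_measure] at h2
    simp only [ENNReal.toReal_pow, ENNReal.toReal_inv, ENNReal.toReal_ofNat, smul_eq_mul] at h2
    have h5 : (2⁻¹ : ℝ) ^ (j + 1) * (((4 ^ (j + 2) : ℕ) : ℝ) / 2) ^ 2 ≤
        C * ((4 ^ (j + 2) : ℕ) : ℝ) := by
      refine le_trans ?_ (le_trans h2 h1)
      gcongr
    push_cast at h5
    have h6 : (4 : ℝ) ^ (j + 2) = 16 * (2 ^ j) ^ 2 := by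
      rw [pow_add, ← pow_mul, mul_comm j 2, pow_mul]
      norm_num
      ring
    have h7 : (2⁻¹ : ℝ) ^ (j + 1) = (2 * 2 ^ j)⁻¹ := by
      rw [inv_pow, pow_succ, mul_comm]
    rw [h6, h7] at h5
    have hp : (0 : ℝ) < 2 ^ j := by positivity
    generalize (2 : ℝ) ^ j = t at h5 hj hp
    have h8 : (2 * t)⁻¹ * (16 * t ^ 2 / 2) ^ 2 = 2 * t * (16 * t ^ 2) := by
      field_simp
      ring
    rw [h8] at h5
    have h9 : 2 * t ≤ C := le_of_mul_le_mul_right h5 (by positivity)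
    linarith

end Pool.Agent.Variants.MP_c22f6b_an.TraceFails
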